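import Mathlib
import Pool.Agent.Lib.P548b.Main

/-!
# A universal formula of any complexity makes the bounded hierarchy collapse provably
-/

set_option autoImplicit false

namespace Pool.Agent.Results.MP_548a82_lc.AnyComplexity

open Pool.Agent.Lib.P548b

/-- Let `T` be a set of `Π₁`-sentences. If a bounded formula `φ(x)` is equivalent to `Φ(e, x)`, where `Φ` is an arbitrary formula
and `e` a numeral, in all models of `IΔ₀ + BΣ₁ + T`, then it is equivalent in all models of `IΔ₀ + T` to a formula all of whose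
quantifiers are bounded by terms in `x`, of quantifier rank at most the rank of `Φ`. -/
theorem result (ι κ : Type) [Countable ι] [Countable κ] (T : (n : ℕ) → Set (Fm ι κ n)) (hT : ∀ n, ∀ θ ∈ T n, θ.Bounded)
    (φ : Fm ι κ 1) (hφ : φ.Bounded) (Φ : Fm ι κ 2) (e : ℕ)
    (h : ∀ (M : Type) (S : Str ι κ M), Mod T S → Coll S → ∀ x : M, (φ.sat S ![x] ↔ Φ.sat S ![S.num e, x])) :
    ∃ θ : Fm ι κ 1, θ.XB ∧ θ.rk ≤ Φ.rk ∧
      ∀ (M : Type) (S : Str ι κ M), Mod T S → ∀ x : M, (φ.sat S ![x] ↔ θ.sat S ![x]) :=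
  rank_bounding_num T hT φ hφ Φ e h

end Pool.Agent.Results.MP_548a82_lc.AnyComplexity
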