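import Mathlib
import Pool.Agent.Lib.P548a.Main

/-!
# Contrary relativisations of the bounded Matiyasevich conjecture

Part 1: relative to comeagre many oracles no formula of any complexity is universal for bounded formulas over all true
`Π₁`-sentences with bounded collection. Part 2: the growth condition of part 1 holds for function symbols of polynomial growth
in the length (so in the plain language and for `Ω₁`). Part 3: relative to suitable oracles a `Σ₁`-formula is universal over all
true `Π₁`-sentences.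
-/

set_option autoImplicit false

namespace Pool.Agent.Results.MP_548a82_lc.ContraryOracles

open Pool.Agent.Lib.P548a

/-- Contrary relativisations of the question whether there is a formula which is universal for bounded formulas. -/
theorem result :
    (∀ (ι : Type) [Countable ι] (F : ι → ℕ → ℕ), (∀ i, Monotone (F i)) → Subexp F →
      ∀ᶠ A in residual (ℕ → Bool), ∀ q : ℕ, ∃ φ : Fm ι 1, φ.Bounded ∧ φ.NoFn ∧
        ∀ (Φ : Fm ι 2) (e : ℕ), Φ.rk ≤ q → ∃ (M : Type) (S : Str ι M), PiOne F A S ∧ IDelta0 S ∧ Coll S ∧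
          ∃ x : M, ¬ (φ.sat S ![x] ↔ Φ.sat S ![S.num e, x])) ∧
    (∀ (ι : Type) (F : ι → ℕ → ℕ),
      (∀ i, ∃ d : ℕ, ∀ y : ℕ, Nat.log 2 (F i y) ≤ (Nat.log 2 y + 2) ^ d) → Subexp F) ∧
    (∀ (ι : Type) (F : ι → ℕ → ℕ), (∀ i, Monotone (F i)) →
      ∀ c : Fm ι 1 → ℕ, Function.Injective c → ∃ B : ℕ → Bool, ∀ φ : Fm ι 1, φ.Bounded →
        ∀ (M : Type) (S : Str ι M), PiOne F B S → ∀ x : M,
          (φ.sat S ![x] ↔ (univR ι).sat S ![S.num (c φ), x])) :=
  ⟨fun _ _ F hm hF => negative F hm hF, fun _ F hF => subexp_of_polylog F hF, fun _ F hm c hc => positive F hm c hc⟩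

end Pool.Agent.Results.MP_548a82_lc.ContraryOracles
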